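import Mathlib

/-! Calculus in the affine charts of the projective plane and the linear algebra of the example. -/

namespace Pool.Agent.Lib.MP_10bb55_an

open Fin

/-- the linear inclusion of the chart direction space: insert `0` in place `i` -/
noncomputable def iota (i : Fin 3) : (Fin 2 → ℂ) →L[ℂ] (Fin 3 → ℂ) :=
  LinearMap.toContinuousLinearMap
    { toFun := fun v => Fin.insertNth (α := fun _ => ℂ) i 0 v
      map_add' := by
        intro v w
        funext k
        induction k using i.succAboveCases with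
        | x => simp
        | p j => simp
      map_smul' := by
        intro c v
        funext k
        induction k using i.succAboveCases with
        | x => simp
        | p j => simp }

@[simp] lemma iota_same (i : Fin 3) (v : Fin 2 → ℂ) : iota i v i = 0 := by
  simp [iota]

@[simp] lemma iota_succAbove (i : Fin 3) (v : Fin 2 → ℂ) (j : Fin 2) :
    iota i v (i.succAbove j) = v j := by
  simp [iota]

lemma hasFDerivAt_ins (i : Fin 3) (w : Fin 2 → ℂ) :
    HasFDerivAt (fun v : Fin 2 → ℂ => Fin.insertNth (α := fun _ => ℂ) i 1 v) (iota i) w := by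
  have h : (fun v : Fin 2 → ℂ => Fin.insertNth (α := fun _ => ℂ) i 1 v)
      = fun v => iota i v + Pi.single i 1 := by
    funext v k
    induction k using i.succAboveCases with
    | x => simp
    | p j => simp [Fin.succAbove_ne]
  rw [h]
  exact (iota i).hasFDerivAt.add_const _

/-- derivative of the local expression at a fixed point -/
lemma local_deriv (G : (Fin 3 → ℂ) → (Fin 3 → ℂ)) (L : (Fin 3 → ℂ) →L[ℂ] (Fin 3 → ℂ))
    (i : Fin 3) (w : Fin 2 → ℂ) (c : ℂ) (hc : c ≠ 0)
    (hG : HasFDerivAt G L (Fin.insertNth (α := fun _ => ℂ) i 1 w))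
    (hfix : G (Fin.insertNth (α := fun _ => ℂ) i 1 w) = c • Fin.insertNth (α := fun _ => ℂ) i 1 w) :
    ∃ D : (Fin 2 → ℂ) →L[ℂ] (Fin 2 → ℂ),
      HasFDerivAt (fun v : Fin 2 → ℂ => fun j : Fin 2 =>
        G (Fin.insertNth (α := fun _ => ℂ) i 1 v) (i.succAbove j) /
          G (Fin.insertNth (α := fun _ => ℂ) i 1 v) i) D w ∧
      ∀ v j, D v j = L (iota i v) (i.succAbove j) / c - w j * L (iota i v) i / c := by
  have hcomp : HasFDerivAt (fun v : Fin 2 → ℂ => G (Fin.insertNth (α := fun _ => ℂ) i 1 v))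
      (L.comp (iota i)) w := hG.comp w (hasFDerivAt_ins i w)
  have hk : ∀ k : Fin 3, HasFDerivAt
      (fun v : Fin 2 → ℂ => G (Fin.insertNth (α := fun _ => ℂ) i 1 v) k)
      ((ContinuousLinearMap.proj k).comp (L.comp (iota i))) w := fun k =>
    (hasFDerivAt_pi'.1 hcomp) k
  have hi : G (Fin.insertNth (α := fun _ => ℂ) i 1 w) i = c := by rw [hfix]; simp
  have hj : ∀ j, G (Fin.insertNth (α := fun _ => ℂ) i 1 w) (i.succAbove j) = c * w j := by
    intro j; rw [hfix]; simp
  have hinv := (hasFDerivAt_inv' (𝕜 := ℂ) (x := G (Fin.insertNth (α := fun _ => ℂ) i 1 w) i)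
    (by rw [hi]; exact hc)).comp w (hk i)
  have hprod := fun j : Fin 2 => (hk (i.succAbove j)).mul hinv
  refine ⟨ContinuousLinearMap.pi fun j => _, hasFDerivAt_pi.2 fun j => by
    simp only [div_eq_mul_inv]; exact hprod j, ?_⟩
  intro v j
  simp [hi, hj]
  field_simp
  ring

lemma vec3_deriv {f0 f1 f2 : (Fin 3 → ℂ) → ℂ} {L0 L1 L2 : (Fin 3 → ℂ) →L[ℂ] ℂ} {z : Fin 3 → ℂ}
    (h0 : HasFDerivAt f0 L0 z) (h1 : HasFDerivAt f1 L1 z) (h2 : HasFDerivAt f2 L2 z) :
    ∃ L : (Fin 3 → ℂ) →L[ℂ] (Fin 3 → ℂ), HasFDerivAt (fun y => ![f0 y, f1 y, f2 y]) L z ∧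
      (∀ x, L x 0 = L0 x) ∧ (∀ x, L x 1 = L1 x) ∧ (∀ x, L x 2 = L2 x) := by
  refine ⟨ContinuousLinearMap.pi ![L0, L1, L2], hasFDerivAt_pi.2 ?_, ?_, ?_, ?_⟩
  · intro i
    fin_cases i
    · exact h0
    · exact h1
    · exact h2
  all_goals intro x; rfl

/-- the lift of the example, degree `n+2`, with `a = (n+2)/(n+3)` -/
noncomputable def exG (n : ℕ) (z : Fin 3 → ℂ) : Fin 3 → ℂ :=
  ![((n + 2 : ℂ) / (n + 3)) * z 0 * z 2 ^ (n + 1) + z 1 ^ (n + 2),
    ((n + 2 : ℂ) / (n + 3)) * z 1 * z 2 ^ (n + 1) + z 0 ^ (n + 2),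
    z 2 ^ (n + 2)]

lemma exG_deriv (n : ℕ) (z : Fin 3 → ℂ) :
    ∃ L : (Fin 3 → ℂ) →L[ℂ] (Fin 3 → ℂ), HasFDerivAt (exG n) L z ∧ ∀ x,
      L x 0 = ((n + 2 : ℂ) / (n + 3)) * (x 0 * z 2 ^ (n + 1) + z 0 * ((n + 1) * z 2 ^ n * x 2))
        + (n + 2) * z 1 ^ (n + 1) * x 1 ∧
      L x 1 = ((n + 2 : ℂ) / (n + 3)) * (x 1 * z 2 ^ (n + 1) + z 1 * ((n + 1) * z 2 ^ n * x 2))
        + (n + 2) * z 0 ^ (n + 1) * x 0 ∧
      L x 2 = (n + 2) * z 2 ^ (n + 1) * x 2 := by
  have hp : ∀ k : Fin 3, HasFDerivAt (fun z : Fin 3 → ℂ => z k)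
      (ContinuousLinearMap.proj (R := ℂ) (φ := fun _ : Fin 3 => ℂ) k) z :=
    fun k => hasFDerivAt_apply k z
  have h0 := (((hp 0).const_mul ((n + 2 : ℂ) / (n + 3))).mul ((hp 2).pow (n + 1))).add
    ((hp 1).pow (n + 2))
  have h1 := (((hp 1).const_mul ((n + 2 : ℂ) / (n + 3))).mul ((hp 2).pow (n + 1))).add
    ((hp 0).pow (n + 2))
  have h2 := (hp 2).pow (n + 2)
  obtain ⟨L, hL, e0, e1, e2⟩ := vec3_deriv h0 h1 h2
  refine ⟨L, hL, fun x => ⟨?_, ?_, ?_⟩⟩
  · rw [e0]; simp; ring
  · rw [e1]; simp; ring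
  · rw [e2]; simp

/-- Euler's identity at a fixed point, and the two linear-algebra facts about the Jacobian. -/
lemma exG_alg (n : ℕ) (z : Fin 3 → ℂ) (hz : z ≠ 0) (c : ℂ) (hc : c ≠ 0)
    (hfix : exG n z = c • z) (L : (Fin 3 → ℂ) →L[ℂ] (Fin 3 → ℂ))
    (hL : ∀ x,
      L x 0 = ((n + 2 : ℂ) / (n + 3)) * (x 0 * z 2 ^ (n + 1) + z 0 * ((n + 1) * z 2 ^ n * x 2))
        + (n + 2) * z 1 ^ (n + 1) * x 1 ∧
      L x 1 = ((n + 2 : ℂ) / (n + 3)) * (x 1 * z 2 ^ (n + 1) + z 1 * ((n + 1) * z 2 ^ n * x 2))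
        + (n + 2) * z 0 ^ (n + 1) * x 0 ∧
      L x 2 = (n + 2) * z 2 ^ (n + 1) * x 2) :
    L z = ((n + 2 : ℂ) * c) • z ∧
    (∃ μ : ℂ, ‖μ‖ < 1 ∧ ∃ x : Fin 3 → ℂ, (∀ s : ℂ, x ≠ s • z) ∧ L x = (μ * c) • x) ∧
    (∀ (x : Fin 3 → ℂ) (s : ℂ), L x = c • x + s • z → ∃ r : ℂ, x = r • z) := by
  have hn3 : (n + 3 : ℂ) ≠ 0 := by exact_mod_cast (by omega : n + 3 ≠ 0)
  have hn2 : (n + 2 : ℂ) ≠ 0 := by exact_mod_cast (by omega : n + 2 ≠ 0)
  have hn1 : (n + 1 : ℂ) ≠ 0 := by exact_mod_cast (by omega : n + 1 ≠ 0)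
  set a : ℂ := (n + 2 : ℂ) / (n + 3) with ha
  have hab : a * (n + 3) = n + 2 := by rw [ha]; field_simp
  have f0 : a * z 0 * z 2 ^ (n + 1) + z 1 ^ (n + 2) = c * z 0 := by
    simpa [exG] using congrFun hfix 0
  have f1 : a * z 1 * z 2 ^ (n + 1) + z 0 ^ (n + 2) = c * z 1 := by
    simpa [exG] using congrFun hfix 1
  have f2 : z 2 ^ (n + 2) = c * z 2 := by
    simpa [exG] using congrFun hfix 2
  have ext3 : ∀ x y : Fin 3 → ℂ, x 0 = y 0 → x 1 = y 1 → x 2 = y 2 → x = y := by
    intro x y h0 h1 h2; funext k; fin_cases k <;> assumption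
  have euler : L z = ((n + 2 : ℂ) * c) • z := by
    obtain ⟨e0, e1, e2⟩ := hL z
    apply ext3
    · rw [e0]; simp only [Pi.smul_apply, smul_eq_mul]
      linear_combination (n + 2 : ℂ) * f0
    · rw [e1]; simp only [Pi.smul_apply, smul_eq_mul]
      linear_combination (n + 2 : ℂ) * f1
    · rw [e2]; simp only [Pi.smul_apply, smul_eq_mul]
      linear_combination (n + 2 : ℂ) * f2
  refine ⟨euler, ?_, ?_⟩
  · by_cases h2 : z 2 = 0
    · -- on the line at infinity: eigenvalue 0
      have h0 : z 0 ≠ 0 := by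
        intro h0
        have : z 1 ^ (n + 2) = 0 := by simpa [h0, h2] using f0
        exact hz (ext3 _ _ h0 (pow_eq_zero_iff (by omega) |>.1 this) h2)
      have h1 : z 1 ≠ 0 := by
        intro h1
        have : z 0 ^ (n + 2) = 0 := by simpa [h1, h2] using f1
        exact h0 (pow_eq_zero_iff (by omega) |>.1 this)
      refine ⟨0, by simp, ![-(a * (z 1 * ((n + 1) * z 2 ^ n))) / ((n + 2) * z 0 ^ (n + 1)),
        -(a * (z 0 * ((n + 1) * z 2 ^ n))) / ((n + 2) * z 1 ^ (n + 1)), 1], ?_, ?_⟩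
      · intro s hs
        have := congrFun hs 2
        simp [h2] at this
      · obtain ⟨e0, e1, e2⟩ := hL ![-(a * (z 1 * ((n + 1) * z 2 ^ n))) / ((n + 2) * z 0 ^ (n + 1)),
          -(a * (z 0 * ((n + 1) * z 2 ^ n))) / ((n + 2) * z 1 ^ (n + 1)), 1]
        have hp : z 2 ^ (n + 1) = 0 := by simp [h2]
        apply ext3
        · rw [e0, hp]; simp; field_simp; ring
        · rw [e1, hp]; simp; field_simp; ring
        · rw [e2, hp]; simp
    · have hc' : c = z 2 ^ (n + 1) := by
        apply mul_right_cancel₀ h2; rw [← f2]; ring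
      by_cases h0 : z 0 = 0
      · have h1 : z 1 = 0 := by
          have : z 1 ^ (n + 2) = 0 := by simpa [h0] using f0
          exact pow_eq_zero_iff (by omega) |>.1 this
        refine ⟨a, ?_, ![1, 0, 0], ?_, ?_⟩
        · rw [ha, norm_div]
          have e2 : ‖(n + 2 : ℂ)‖ = (n + 2 : ℝ) := by exact_mod_cast Complex.norm_natCast (n + 2)
          have e3 : ‖(n + 3 : ℂ)‖ = (n + 3 : ℝ) := by exact_mod_cast Complex.norm_natCast (n + 3)
          rw [e2, e3, div_lt_one (by positivity)]; linarith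
        · intro s hs
          have := congrFun hs 0
          simp [h0] at this
        · obtain ⟨e0, e1, e2⟩ := hL ![1, 0, 0]
          apply ext3
          · rw [e0, hc']; simp
          · rw [e1]; simp [h0]
          · rw [e2]; simp
      · refine ⟨0, by simp, ![z 0, -z 1, 0], ?_, ?_⟩
        · intro s hs
          have h3 := congrFun hs 2
          have h4 := congrFun hs 0
          simp [h2] at h3
          simp [h3, h0] at h4
        · obtain ⟨e0, e1, e2⟩ := hL ![z 0, -z 1, 0]
          rw [hc'] at f0 f1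
          apply ext3
          · rw [e0]; simp
            linear_combination (-(n + 2 : ℂ)) * f0 + (z 0 * z 2 ^ (n + 1)) * hab
          · rw [e1]; simp
            linear_combination ((n + 2 : ℂ)) * f1 - (z 1 * z 2 ^ (n + 1)) * hab
          · rw [e2]; simp
  · intro x s hx
    by_cases h2 : z 2 = 0
    · have h0 : z 0 ≠ 0 := by
        intro h0
        have : z 1 ^ (n + 2) = 0 := by simpa [h0, h2] using f0
        exact hz (ext3 _ _ h0 (pow_eq_zero_iff (by omega) |>.1 this) h2)
      obtain ⟨e0, e1, e2⟩ := hL x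
      have hp : z 2 ^ (n + 1) = 0 := by simp [h2]
      have g0 := congrFun hx 0
      have g1 := congrFun hx 1
      have g2 := congrFun hx 2
      simp only [Pi.add_apply, Pi.smul_apply, smul_eq_mul] at g0 g1 g2
      rw [e2, hp, h2] at g2
      have x2 : x 2 = 0 := by
        have : c * x 2 = 0 := by linear_combination -g2
        exact (mul_eq_zero.1 this).resolve_left hc
      rw [e0, hp, x2] at g0
      rw [e1, hp, x2] at g1
      rw [hp] at f0 f1
      have key : (n + 3 : ℂ) * c * (z 0 * x 1 - z 1 * x 0) = 0 := by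
        linear_combination (z 1) * g0 - (z 0) * g1 - ((n + 2 : ℂ) * x 1) * f0
          + ((n + 2 : ℂ) * x 0) * f1
      have key' : z 0 * x 1 - z 1 * x 0 = 0 :=
        (mul_eq_zero.1 key).resolve_left (mul_ne_zero hn3 hc)
      refine ⟨x 0 / z 0, ext3 _ _ ?_ ?_ ?_⟩
      · simp; field_simp
      · simp; field_simp; linear_combination key'
      · simp [x2, h2]
    · have hc' : c = z 2 ^ (n + 1) := by
        apply mul_right_cancel₀ h2; rw [← f2]; ring
      refine ⟨x 2 / z 2, ?_⟩
      set y : Fin 3 → ℂ := x - (x 2 / z 2) • z with hy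
      have y2 : y 2 = 0 := by simp [hy]; field_simp; ring
      have hLy : L y = c • y + (s - (x 2 / z 2) * ((n + 1) * c)) • z := by
        rw [hy, map_sub, map_smul, hx, euler]
        funext k; simp only [Pi.add_apply, Pi.sub_apply, Pi.smul_apply, smul_eq_mul]; ring
      generalize (s - (x 2 / z 2) * ((n + 1) * c)) = s' at hLy
      obtain ⟨e0, e1, e2⟩ := hL y
      have g0 := congrFun hLy 0
      have g1 := congrFun hLy 1
      have g2 := congrFun hLy 2
      simp only [Pi.add_apply, Pi.smul_apply, smul_eq_mul] at g0 g1 g2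
      rw [e2, y2] at g2
      have hs' : s' = 0 := by
        have : s' * z 2 = 0 := by linear_combination -g2
        exact (mul_eq_zero.1 this).resolve_right h2
      rw [e0, y2, hs', ← hc'] at g0
      rw [e1, y2, hs', ← hc'] at g1
      rw [← hc'] at f0 f1
      have hb : (1 - a) * c ≠ 0 := by
        refine mul_ne_zero ?_ hc
        intro h
        have : a = 1 := by linear_combination -h
        rw [this] at hab
        have : (1 : ℂ) = 0 := by linear_combination hab
        exact one_ne_zero this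
      have y0 : y 0 = 0 ∧ y 1 = 0 := by
        by_cases h0 : z 0 = 0
        · have h1 : z 1 = 0 := by
            have : z 1 ^ (n + 2) = 0 := by simpa [h0] using f0
            exact pow_eq_zero_iff (by omega) |>.1 this
          rw [h0, h1] at g0 g1
          constructor
          · have : (1 - a) * c * y 0 = 0 := by
              simp at g0; linear_combination -g0
            exact (mul_eq_zero.1 this).resolve_left hb
          · have : (1 - a) * c * y 1 = 0 := by
              simp at g1; linear_combination -g1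
            exact (mul_eq_zero.1 this).resolve_left hb
        · have h1 : z 1 ≠ 0 := by
            intro h1
            have : z 0 ^ (n + 2) = 0 := by simpa [h1] using f1
            exact h0 (pow_eq_zero_iff (by omega) |>.1 this)
          have k0 : (1 - a) * c * ((n + 2) * z 0 * y 1 - z 1 * y 0) = 0 := by
            linear_combination (z 1) * g0 - ((n + 2 : ℂ) * y 1) * f0
          have k1 : (1 - a) * c * ((n + 2) * z 1 * y 0 - z 0 * y 1) = 0 := by
            linear_combination (z 0) * g1 - ((n + 2 : ℂ) * y 0) * f1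
          have k0' := (mul_eq_zero.1 k0).resolve_left hb
          have k1' := (mul_eq_zero.1 k1).resolve_left hb
          have k2 : (n + 1 : ℂ) * (n + 3) * z 1 * y 0 = 0 := by
            linear_combination k0' + (n + 2 : ℂ) * k1'
          have y0 : y 0 = 0 :=
            (mul_eq_zero.1 k2).resolve_left (mul_ne_zero (mul_ne_zero hn1 hn3) h1)
          refine ⟨y0, ?_⟩
          have : z 0 * y 1 = 0 := by rw [y0] at k1'; linear_combination -k1'
          exact (mul_eq_zero.1 this).resolve_left h0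
      have : y = 0 := ext3 _ _ y0.1 y0.2 y2
      rw [hy] at this
      exact sub_eq_zero.1 this

/-- the chart statement for the example at a normalised fixed point -/
lemma exG_chart (n : ℕ) (i : Fin 3) (w : Fin 2 → ℂ) (c : ℂ) (hc : c ≠ 0)
    (hfix : exG n (Fin.insertNth (α := fun _ => ℂ) i 1 w)
      = c • Fin.insertNth (α := fun _ => ℂ) i 1 w) :
    ∃ D : (Fin 2 → ℂ) →L[ℂ] (Fin 2 → ℂ),
      HasFDerivAt (fun v : Fin 2 → ℂ => fun j : Fin 2 =>
        exG n (Fin.insertNth (α := fun _ => ℂ) i 1 v) (i.succAbove j) /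
          exG n (Fin.insertNth (α := fun _ => ℂ) i 1 v) i) D w ∧
      (∃ μ : ℂ, ‖μ‖ < 1 ∧ ∃ v : Fin 2 → ℂ, v ≠ 0 ∧ D v = μ • v) ∧
      (∀ v : Fin 2 → ℂ, D v = v → v = 0) := by
  obtain ⟨L, hL, hLx⟩ := exG_deriv n (Fin.insertNth (α := fun _ => ℂ) i 1 w)
  obtain ⟨D, hD, hDv⟩ := local_deriv (exG n) L i w c hc hL hfix
  set z : Fin 3 → ℂ := Fin.insertNth (α := fun _ => ℂ) i 1 w with hzdef
  have zi : z i = 1 := by simp [hzdef]
  have zj : ∀ j, z (i.succAbove j) = w j := by intro j; simp [hzdef]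
  have hz : z ≠ 0 := by
    intro h; rw [h] at zi; simp at zi
  obtain ⟨euler, ⟨μ, hμ, x, hx, hLx'⟩, h1⟩ := exG_alg n z hz c hc hfix L hLx
  refine ⟨D, hD, ⟨μ, hμ, fun j => x (i.succAbove j) - x i * w j, ?_, ?_⟩, ?_⟩
  · intro h
    apply hx (x i)
    funext k
    induction k using i.succAboveCases with
    | x => simp [zi]
    | p j =>
      have := congrFun h j
      simp only [Pi.zero_apply] at this
      simp only [Pi.smul_apply, smul_eq_mul, zj]
      linear_combination this
  · have hι : iota i (fun j => x (i.succAbove j) - x i * w j) = x - x i • z := by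
      funext k
      induction k using i.succAboveCases with
      | x => simp [zi]
      | p j => simp [zj]
    funext j
    rw [hDv, hι, map_sub, map_smul, hLx', euler]
    simp only [Pi.sub_apply, Pi.smul_apply, smul_eq_mul, zi, zj]
    field_simp
    ring
  · intro v hv
    have hLi : L (iota i v) = c • iota i v + (L (iota i v) i) • z := by
      funext k
      induction k using i.succAboveCases with
      | x => simp [zi]
      | p j =>
        have := congrFun hv j
        rw [hDv] at this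
        simp only [Pi.add_apply, Pi.smul_apply, smul_eq_mul, zj, iota_succAbove]
        field_simp at this
        linear_combination this
    obtain ⟨r, hr⟩ := h1 _ _ hLi
    have hr0 : r = 0 := by
      have := congrFun hr i
      simpa [zi] using this.symm
    funext j
    have := congrFun hr (i.succAbove j)
    simpa [hr0] using this

lemma exG_smul (n : ℕ) (t : ℂ) (z : Fin 3 → ℂ) : exG n (t • z) = t ^ (n + 2) • exG n z := by
  funext k
  fin_cases k <;> simp [exG] <;> ring

lemma exG_eq_zero (n : ℕ) (z : Fin 3 → ℂ) (h : exG n z = 0) : z = 0 := by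
  have f0 := congrFun h 0
  have f1 := congrFun h 1
  have f2 := congrFun h 2
  simp [exG] at f2
  simp [exG, f2] at f0 f1
  funext k
  fin_cases k <;> simp [f0, f1, f2]

end Pool.Agent.Lib.MP_10bb55_an
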